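import Mathlib
import Pool.Agent.MP_39e5ce_co.Core

/-!
Open one-sided Hadwiger numbers: in every dimension `d ≥ 3` there is a convex body with
`(29 * 3 ^ (d - 3) - 1) / 2` pairwise non-overlapping touching translates in one open supporting
half space.  This is more than the value `(3 ^ d - 1) / 2` of the cube.
-/

namespace Pool.Agent.Results.MP_39e5ce_co.LowerBound

open Set

/-- The translate `K + v`. -/
def translate {d : ℕ} (K : Set (EuclideanSpace ℝ (Fin d))) (v : EuclideanSpace ℝ (Fin d)) :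
    Set (EuclideanSpace ℝ (Fin d)) :=
  (fun x => x + v) '' K

theorem result (d : ℕ) (hd : 3 ≤ d) :
    ∃ K : Set (EuclideanSpace ℝ (Fin d)),
      IsCompact K ∧ Convex ℝ K ∧ (interior K).Nonempty ∧
      ∃ (w : EuclideanSpace ℝ (Fin d)) (c : ℝ), w ≠ 0 ∧
        K ⊆ {x | inner ℝ w x ≤ c} ∧ (∃ x ∈ K, inner ℝ w x = c) ∧
        ∃ V : Finset (EuclideanSpace ℝ (Fin d)),
          2 * V.card + 1 = 29 * 3 ^ (d - 3) ∧
          (∀ v ∈ V, ∀ v' ∈ V, v ≠ v' →
            Disjoint (interior (translate K v)) (interior (translate K v'))) ∧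
          (∀ v ∈ V, Disjoint (interior (translate K v)) (interior K) ∧
            (translate K v ∩ K).Nonempty) ∧
          (∀ v ∈ V, translate K v ⊆ interior {x | inner ℝ w x ≤ c}) := by
  classical
  obtain ⟨k, rfl⟩ : ∃ k, d = k + 3 := ⟨d - 3, by omega⟩
  obtain ⟨n, ⟨S, A, u, C, hS, hA, hC, hin, hbd, hsep, hu⟩, hn⟩ :=
    Pool.Agent.MP_39e5ce_co.good_all k
  set E := EuclideanSpace ℝ (Fin (k + 3)) with hE
  let e : E ≃L[ℝ] (Fin (k + 3) → ℝ) := EuclideanSpace.equiv _ _
  let F : ((Fin (k + 3) → ℝ) →ₗ[ℝ] ℝ) → (E →L[ℝ] ℝ) := fun φ =>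
    (LinearMap.toContinuousLinearMap φ).comp (e : E →L[ℝ] (Fin (k + 3) → ℝ))
  have hF : ∀ φ x, F φ x = φ (e x) := fun _ _ => rfl
  let K : Set E := {x | ∀ φ ∈ S, |F φ x| ≤ 1}
  have hKclosed : IsClosed K := by
    have : K = ⋂ φ ∈ S, {x | |F φ x| ≤ 1} := by ext x; simp [K]
    rw [this]
    exact isClosed_biInter fun φ _ => isClosed_le (F φ).continuous.abs continuous_const
  have hKcomp : IsCompact K := by
    have h1 : IsCompact (e.symm '' (Set.pi univ fun _ => Icc (-C) C)) :=
      (isCompact_univ_pi fun _ => isCompact_Icc).image e.symm.continuous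
    refine h1.of_isClosed_subset hKclosed fun x hx => ⟨e x, fun j _ => ?_, by simp⟩
    exact abs_le.1 (hC (e x) hx j)
  have hKconv : Convex ℝ K := by
    intro x hx y hy a b ha hb hab φ hφ
    have h1 := abs_le.1 (hx φ hφ)
    have h2 := abs_le.1 (hy φ hφ)
    rw [map_add, map_smul, map_smul, smul_eq_mul, smul_eq_mul, abs_le]
    constructor <;> nlinarith [h1.1, h1.2, h2.1, h2.2]
  have h0int : (0 : E) ∈ interior K := by
    have hopen : IsOpen (⋂ φ ∈ S, {x : E | |F φ x| < 1}) :=
      hS.isOpen_biInter fun φ _ => isOpen_lt (F φ).continuous.abs continuous_const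
    refine interior_maximal (fun x hx φ hφ => ?_) hopen (by simp)
    exact le_of_lt (by simpa using mem_iInter₂.1 hx φ hφ)
  -- points of the interior of a translate satisfy strict inequalities
  have hstrict : ∀ (v x : E), x ∈ interior (translate K v) → ∀ φ ∈ S, ∀ y : E, F φ y ≠ 0 →
      |F φ x - F φ v| < 1 := by
    intro v x hx φ hφ y hy
    have hc : Continuous fun t : ℝ => x + t • y := by fun_prop
    have hnb : (fun t : ℝ => x + t • y) ⁻¹' interior (translate K v) ∈ nhds (0 : ℝ) :=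
      hc.continuousAt.preimage_mem_nhds (by simpa using isOpen_interior.mem_nhds hx)
    obtain ⟨ε, hε, hball⟩ := Metric.mem_nhds_iff.1 hnb
    have key : ∀ t : ℝ, |t| < ε → |F φ x + t * F φ y - F φ v| ≤ 1 := by
      intro t ht
      obtain ⟨z, hz, hzv⟩ := interior_subset (hball (by simpa using ht))
      have h1 : z = x + t • y - v := eq_sub_of_add_eq hzv
      have := hz φ hφ
      rwa [h1, map_sub, map_add, map_smul, smul_eq_mul] at this
    have hp := abs_le.1 (key (ε / 2) (by rw [abs_of_pos (by positivity)]; linarith))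
    have hm := abs_le.1 (key (-(ε / 2)) (by rw [abs_neg, abs_of_pos (by positivity)]; linarith))
    rw [abs_lt]
    rcases lt_or_gt_of_ne hy with hy | hy
    · constructor <;> nlinarith [hp.1, hp.2, hm.1, hm.2]
    · constructor <;> nlinarith [hp.1, hp.2, hm.1, hm.2]
  have hdisj : ∀ v v' : E, (∃ φ ∈ S, 2 ≤ |F φ v - F φ v'|) →
      Disjoint (interior (translate K v)) (interior (translate K v')) := by
    rintro v v' ⟨φ, hφ, h2⟩
    rw [Set.disjoint_left]
    intro x hx hx'
    have hy : F φ (v - v') ≠ 0 := by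
      rw [map_sub]; intro h; rw [h] at h2; norm_num at h2
    have h3 := abs_lt.1 (hstrict v x hx φ hφ _ hy)
    have h4 := abs_lt.1 (hstrict v' x hx' φ hφ _ hy)
    rcases le_abs.1 h2 with h2 | h2 <;> linarith [h3.1, h3.2, h4.1, h4.2]
  let g : (Fin (k + 3) → ℝ) → E := fun a => (2 : ℝ) • e.symm a
  have hg : ∀ φ a, F φ (g a) = 2 * φ a := by
    intro φ a; simp [g, hF]
  have hginj : Function.Injective g := by
    intro a b hab
    exact e.symm.injective (smul_right_injective E (two_ne_zero) hab)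
  -- the supporting half space
  let w : E := (InnerProductSpace.toDual ℝ E).symm (-F u)
  have hw : ∀ x : E, inner ℝ w x = -F u x := fun x => by
    simp [w]
  obtain ⟨x0, hx0, hmax⟩ := hKcomp.exists_isMaxOn ⟨0, interior_subset h0int⟩
    (f := fun x : E => -F u x) (by fun_prop)
  have hAne : A.Nonempty := by
    rw [← Finset.card_pos, hA]
    have : 1 ≤ 3 ^ k := Nat.one_le_pow _ _ (by norm_num)
    omega
  refine ⟨K, hKcomp, hKconv, ⟨0, h0int⟩, w, -F u x0, ?_, ?_, ⟨x0, hx0, hw x0⟩, A.image g,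
    ?_, ?_, ?_, ?_⟩
  · intro h
    obtain ⟨a, ha⟩ := hAne
    have h1 := hw (g a)
    rw [h, inner_zero_left, hg] at h1
    linarith [hu a ha]
  · intro x hx
    simp only [mem_ofPred_eq, hw]
    exact hmax hx
  · rw [Finset.card_image_of_injective _ hginj, hA]; simpa using hn
  · intro v hv v' hv' hne
    obtain ⟨a, ha, rfl⟩ := Finset.mem_image.1 hv
    obtain ⟨b, hb, rfl⟩ := Finset.mem_image.1 hv'
    obtain ⟨φ, hφ, h⟩ := hsep a ha b hb (fun h => hne (by rw [h]))
    refine hdisj _ _ ⟨φ, hφ, ?_⟩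
    rw [hg, hg, ← mul_sub, abs_mul, abs_two]
    linarith
  · intro v hv
    obtain ⟨a, ha, rfl⟩ := Finset.mem_image.1 hv
    constructor
    · obtain ⟨φ, hφ, h⟩ := hbd a ha
      have := hdisj (g a) 0 ⟨φ, hφ, by
        rw [hg, map_zero, sub_zero, abs_mul, abs_two]; linarith⟩
      simpa [translate] using this
    · refine ⟨e.symm a, ⟨-e.symm a, fun φ hφ => ?_, ?_⟩, fun φ hφ => ?_⟩
      · simpa [hF] using hin a ha φ hφ
      · simp only [g, two_smul]; abel
      · simpa [hF] using hin a ha φ hφ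
  · intro v hv
    obtain ⟨a, ha, rfl⟩ := Finset.mem_image.1 hv
    have hopen : IsOpen {x : E | inner ℝ w x < -F u x0} :=
      isOpen_lt (by fun_prop) continuous_const
    have hsub : {x : E | inner ℝ w x < -F u x0} ⊆ {x : E | inner ℝ w x ≤ -F u x0} :=
      fun x (hx : inner ℝ w x < -F u x0) => (le_of_lt hx : inner ℝ w x ≤ -F u x0)
    refine subset_trans ?_ (interior_maximal hsub hopen)
    rintro _ ⟨x, hx, rfl⟩
    have h1 : -F u x ≤ -F u x0 := hmax hx
    show inner ℝ w (x + g a) < -F u x0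
    rw [hw, map_add, hg]
    linarith [hu a ha]

end Pool.Agent.Results.MP_39e5ce_co.LowerBound
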