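import Mathlib
import Pool.Agent.MP_39e5ce_co.nc.Geo

/-!
Open one-sided Hadwiger numbers near the cube: a convex body of dimension `d ≥ 4` that lies between
a parallelotope and a homothetic copy of ratio `1 + 1 / (100 d)` has at most
`53 * 3 ^ (d - 4) - 1 = 2 * 3 ^ (d - 1) - 3 ^ (d - 4) - 1` pairwise non-overlapping touching
translates in one open supporting half space.
-/

namespace Pool.Agent.Results.MP_39e5ce_co.NearCube

open Set

/-- The translate `K + v`. -/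
def translate {d : ℕ} (K : Set (EuclideanSpace ℝ (Fin d))) (v : EuclideanSpace ℝ (Fin d)) :
    Set (EuclideanSpace ℝ (Fin d)) :=
  (fun x => x + v) '' K

/-- The cube `[-r, r]^d`. -/
def cube (d : ℕ) (r : ℝ) : Set (EuclideanSpace ℝ (Fin d)) := {x | ∀ i, |x i| ≤ r}

theorem result (d : ℕ) (hd : 4 ≤ d) (K : Set (EuclideanSpace ℝ (Fin d)))
    (_hKc : IsCompact K) (hK : Convex ℝ K) (hKi : (interior K).Nonempty)
    (T : EuclideanSpace ℝ (Fin d) ≃ᵃ[ℝ] EuclideanSpace ℝ (Fin d)) (t : EuclideanSpace ℝ (Fin d))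
    (hT1 : T '' cube d 1 ⊆ K) (hT2 : K ⊆ translate (T '' cube d (1 + 1 / (100 * (d : ℝ)))) t)
    (w : EuclideanSpace ℝ (Fin d)) (c : ℝ) (hw : w ≠ 0)
    (_hH : K ⊆ {x | inner ℝ w x ≤ c}) (hc : ∃ x ∈ K, inner ℝ w x = c)
    (V : Finset (EuclideanSpace ℝ (Fin d)))
    (hV1 : ∀ v ∈ V, ∀ v' ∈ V, v ≠ v' →
      Disjoint (interior (translate K v)) (interior (translate K v')))
    (hV2 : ∀ v ∈ V, Disjoint (interior (translate K v)) (interior K) ∧
      (translate K v ∩ K).Nonempty)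
    (hV3 : ∀ v ∈ V, translate K v ⊆ interior {x | inner ℝ w x ≤ c}) :
    V.card + 1 ≤ 53 * 3 ^ (d - 4) := by
  refine Pool.Agent.MP_39e5ce_co.NC.bound hd hK hKi T t hT1 hT2 (w := w) V hV1 hV2 fun v hv => ?_
  obtain ⟨x, hx, hxc⟩ := hc
  have := Pool.Agent.MP_39e5ce_co.NC.lt_of_int hw (hV3 v hv ⟨x, hx, rfl⟩)
  rw [inner_add_right] at this
  linarith

end Pool.Agent.Results.MP_39e5ce_co.NearCube
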