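import Mathlib
import Pool.Agent.MP_39e5ce_co.nc.Geo
import Pool.Agent.MP_39e5ce_co.ps.All

/-!
Open one-sided Hadwiger numbers of all convex bodies: in dimension `d ≥ 2` at most
`(1 - (1000 d ^ 3) ^ (-634)) * 2 * 3 ^ (d - 1) - 1` pairwise non-overlapping translates touch the body and
lie in one open supporting half space.
-/

namespace Pool.Agent.Results.MP_39e5ce_co.PolyGap

open Set

/-- The translate `K + v`. -/
def translate {d : ℕ} (K : Set (EuclideanSpace ℝ (Fin d))) (v : EuclideanSpace ℝ (Fin d)) :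
    Set (EuclideanSpace ℝ (Fin d)) :=
  (fun x => x + v) '' K

theorem result (d : ℕ) (hd : 2 ≤ d) (K : Set (EuclideanSpace ℝ (Fin d)))
    (hKc : IsCompact K) (hK : Convex ℝ K) (hKi : (interior K).Nonempty)
    (w : EuclideanSpace ℝ (Fin d)) (c : ℝ) (hw : w ≠ 0)
    (_hH : K ⊆ {x | inner ℝ w x ≤ c}) (hc : ∃ x ∈ K, inner ℝ w x = c)
    (V : Finset (EuclideanSpace ℝ (Fin d)))
    (hV1 : ∀ v ∈ V, ∀ v' ∈ V, v ≠ v' →
      Disjoint (interior (translate K v)) (interior (translate K v')))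
    (hV2 : ∀ v ∈ V, Disjoint (interior (translate K v)) (interior K) ∧
      (translate K v ∩ K).Nonempty)
    (hV3 : ∀ v ∈ V, translate K v ⊆ interior {x | inner ℝ w x ≤ c}) :
    (V.card : ℝ) + 1 ≤ (1 - 1 / (1000 * (d : ℝ) ^ 3) ^ 634) * (2 * 3 ^ (d - 1)) := by
  refine Pool.Agent.MP_39e5ce_co.PS.all d K w V hd hKc hK hKi hw hV1 hV2 fun v hv => ?_
  obtain ⟨x, hx, hxc⟩ := hc
  have := Pool.Agent.MP_39e5ce_co.NC.lt_of_int hw (hV3 v hv ⟨x, hx, rfl⟩)
  rw [inner_add_right] at this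
  linarith

end Pool.Agent.Results.MP_39e5ce_co.PolyGap
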